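import Mathlib

open MeasureTheory Metric Set Filter Topology
open scoped ENNReal NNReal

noncomputable section

namespace Pool.Agent.Results.MP_cbfbdc_gt.Dim12

/-- Euclidean `d`-space. -/
abbrev E (d : ℕ) : Type := EuclideanSpace ℝ (Fin d)

/-- The divergence of a vector field. -/
def divg {d : ℕ} (X : E d → E d) (x : E d) : ℝ :=
  ∑ i, (fderiv ℝ X x (EuclideanSpace.single i 1)) i

/-- The volume of the unit ball in dimension `m`. -/
def omega (m : ℕ) : ℝ := (volume (ball (0 : E m) 1)).toReal

theorem volume_ball_eq {d : ℕ} [NeZero d] (c : E d) {r : ℝ} (hr : 0 ≤ r) :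
    (volume (ball c r)).toReal = omega d * r ^ d := by
  rw [Measure.addHaar_ball _ _ hr, finrank_euclideanSpace, Fintype.card_fin, ENNReal.toReal_mul,
    ENNReal.toReal_ofReal (by positivity)]
  unfold omega
  ring

theorem volume_closedBall_eq {d : ℕ} [NeZero d] (c : E d) {r : ℝ} (hr : 0 ≤ r) :
    (volume (closedBall c r)).toReal = omega d * r ^ d := by
  rw [Measure.addHaar_closedBall_eq_addHaar_ball, volume_ball_eq c hr]

theorem omega_pos (d : ℕ) : 0 < omega d :=
  ENNReal.toReal_pos (measure_ball_pos _ _ one_pos).ne' measure_ball_lt_top.ne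

/-- The cutoff function. -/
def chi {d : ℕ} (c : E d) (r ε : ℝ) (x : E d) : ℝ := max 0 (min 1 ((r + ε - ‖x - c‖) / ε))

theorem chi_lip {d : ℕ} (c : E d) (r : ℝ) {ε : ℝ} (hε : 0 < ε) :
    LipschitzWith (Real.toNNReal (1 / ε)) (chi c r ε) := by
  apply LipschitzWith.of_dist_le_mul
  intro x y
  rw [Real.coe_toNNReal _ (by positivity)]
  unfold chi
  rw [Real.dist_eq]
  refine (abs_max_sub_max_le_max _ _ _ _).trans ?_
  rw [sub_self, abs_zero, max_eq_right (abs_nonneg _)]
  refine (abs_min_sub_min_le_max _ _ _ _).trans ?_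
  rw [sub_self, abs_zero, max_eq_right (abs_nonneg _), ← sub_div, abs_div, abs_of_pos hε,
    div_mul_eq_mul_div, one_mul, dist_eq_norm]
  gcongr
  have h := abs_norm_sub_norm_le (y - c) (x - c)
  have h2 : (y - c) - (x - c) = y - x := by abel
  rw [h2] at h
  have h3 : r + ε - ‖x - c‖ - (r + ε - ‖y - c‖) = ‖y - c‖ - ‖x - c‖ := by ring
  rw [h3, norm_sub_rev x y]
  exact h

theorem chi_nonneg {d : ℕ} (c : E d) (r ε : ℝ) (x : E d) : 0 ≤ chi c r ε x := le_max_left _ _

theorem chi_le_one {d : ℕ} (c : E d) (r ε : ℝ) (x : E d) : chi c r ε x ≤ 1 :=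
  max_le zero_le_one (min_le_left _ _)

theorem chi_one {d : ℕ} {c : E d} {r ε : ℝ} (hε : 0 < ε) {x : E d} (hx : ‖x - c‖ ≤ r) :
    chi c r ε x = 1 := by
  unfold chi
  have : 1 ≤ (r + ε - ‖x - c‖) / ε := by
    rw [le_div_iff₀ hε]
    linarith
  rw [min_eq_left this, max_eq_right zero_le_one]

theorem chi_zero {d : ℕ} {c : E d} {r ε : ℝ} (hε : 0 < ε) {x : E d} (hx : r + ε ≤ ‖x - c‖) :
    chi c r ε x = 0 := by
  unfold chi
  have : (r + ε - ‖x - c‖) / ε ≤ 0 := div_nonpos_of_nonpos_of_nonneg (by linarith) hε.le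
  rw [max_eq_left ((min_le_right _ _).trans this)]

/-- The closed shell. -/
def shell {d : ℕ} (c : E d) (r ε : ℝ) : Set (E d) := closedBall c (r + ε) \ ball c r

theorem measurableSet_shell {d : ℕ} (c : E d) (r ε : ℝ) : MeasurableSet (shell c r ε) :=
  measurableSet_closedBall.diff measurableSet_ball

theorem volume_shell {d : ℕ} [NeZero d] (c : E d) {r ε : ℝ} (hr : 0 ≤ r) (hε : 0 < ε) :
    (volume (shell c r ε)).toReal = omega d * ((r + ε) ^ d - r ^ d) := by
  unfold shell
  rw [measure_sdiff (ball_subset_closedBall.trans (closedBall_subset_closedBall (by linarith)))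
    measurableSet_ball.nullMeasurableSet measure_ball_lt_top.ne, ENNReal.toReal_sub_of_le,
    volume_closedBall_eq c (by linarith), volume_ball_eq c hr]
  · ring
  · exact measure_mono (ball_subset_closedBall.trans (closedBall_subset_closedBall (by linarith)))
  · exact measure_closedBall_lt_top.ne

theorem volume_shell_lt_top {d : ℕ} (c : E d) (r ε : ℝ) : volume (shell c r ε) < ∞ :=
  (measure_mono sdiff_subset).trans_lt measure_closedBall_lt_top

theorem chi_compact {d : ℕ} (c : E d) (r : ℝ) {ε : ℝ} (hε : 0 < ε) :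
    HasCompactSupport (chi c r ε) := by
  apply HasCompactSupport.of_support_subset_isCompact (isCompact_closedBall c (r + ε))
  intro x hx
  rw [mem_closedBall, dist_eq_norm]
  by_contra h
  exact hx (chi_zero hε (not_le.1 h).le)

theorem fderiv_chi_eq_zero {d : ℕ} {c : E d} {r ε : ℝ} (hε : 0 < ε) {x : E d}
    (hx : x ∉ shell c r ε) : fderiv ℝ (chi c r ε) x = 0 := by
  have hcase : ‖x - c‖ < r ∨ r + ε < ‖x - c‖ := by
    by_contra h
    push Not at h
    apply hx
    refine ⟨?_, ?_⟩
    · rw [mem_closedBall, dist_eq_norm]; exact h.2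
    · rw [mem_ball, dist_eq_norm, not_lt]; exact h.1
  have hcont : Continuous fun y : E d => ‖y - c‖ := by fun_prop
  rcases hcase with h | h
  · have : chi c r ε =ᶠ[𝓝 x] fun _ => (1 : ℝ) := by
      filter_upwards [(isOpen_lt hcont continuous_const).mem_nhds h] with y hy
      exact chi_one hε (le_of_lt hy)
    rw [this.fderiv_eq]
    simp
  · have : chi c r ε =ᶠ[𝓝 x] fun _ => (0 : ℝ) := by
      filter_upwards [(isOpen_lt continuous_const hcont).mem_nhds h] with y hy
      exact chi_zero hε (le_of_lt hy)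
    rw [this.fderiv_eq]
    simp

theorem norm_divg_le {d : ℕ} {X : E d → E d} {C : ℝ≥0} (hX : LipschitzWith C X) (x : E d) :
    |divg X x| ≤ d * C := by
  unfold divg
  refine (Finset.abs_sum_le_sum_abs _ _).trans ?_
  have h : ∀ i ∈ Finset.univ, |(fderiv ℝ X x (EuclideanSpace.single i 1)) i| ≤ (C : ℝ) := by
    intro i _
    have h1 := PiLp.norm_apply_le (fderiv ℝ X x (EuclideanSpace.single i 1)) i
    rw [Real.norm_eq_abs] at h1
    refine h1.trans ?_
    refine ((fderiv ℝ X x).le_opNorm _).trans ?_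
    rw [PiLp.norm_single, norm_one, mul_one]
    exact norm_fderiv_le_of_lipschitz ℝ hX
  refine (Finset.sum_le_sum h).trans ?_
  simp

theorem continuous_divg {d : ℕ} {X : E d → E d} (hX : ContDiff ℝ 1 X) : Continuous (divg X) := by
  unfold divg
  apply continuous_finsetSum
  intro i _
  have h1 : Continuous fun x => fderiv ℝ X x (EuclideanSpace.single i 1) :=
    (hX.continuous_fderiv one_ne_zero).clm_apply continuous_const
  fun_prop

/-- Integration by parts against the cutoff function. -/
theorem integral_chi_divg {d : ℕ} [NeZero d] {X : E d → E d} {C : ℝ≥0} (hX : ContDiff ℝ 1 X)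
    (hL : LipschitzWith C X) (hb : ∀ x, ‖X x‖ ≤ 1) (c : E d) {r ε : ℝ} (hr : 0 ≤ r)
    (hε : 0 < ε) :
    ∫ x, chi c r ε x * divg X x ≤ (1 / ε) * (omega d * ((r + ε) ^ d - r ^ d)) := by
  have hχ := chi_lip c r hε
  have hχc := chi_compact c r hε
  -- coordinates
  have hLi : ∀ i, LipschitzWith C (fun x => X x i) := by
    intro i
    apply LipschitzWith.of_dist_le_mul
    intro x y
    refine le_trans ?_ (hL.dist_le_mul x y)
    rw [dist_eq_norm, dist_eq_norm]
    exact PiLp.norm_apply_le (X x - X y) i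
  have hdi : ∀ i x, lineDeriv ℝ (fun x => X x i) x (EuclideanSpace.single i 1) =
      (fderiv ℝ X x (EuclideanSpace.single i 1)) i := by
    intro i x
    have hd : DifferentiableAt ℝ X x := hX.differentiable one_ne_zero x
    have h1 : HasFDerivAt (fun x => X x i)
        ((EuclideanSpace.proj i : E d →L[ℝ] ℝ).comp (fderiv ℝ X x)) x :=
      (EuclideanSpace.proj i : E d →L[ℝ] ℝ).hasFDerivAt.comp x hd.hasFDerivAt
    rw [h1.differentiableAt.lineDeriv_eq_fderiv, h1.fderiv]
    rfl
  have hparts : ∀ i, ∫ x, (fderiv ℝ X x (EuclideanSpace.single i 1)) i * chi c r ε x =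
      ∫ x, lineDeriv ℝ (chi c r ε) x (-(EuclideanSpace.single i 1)) * X x i := by
    intro i
    have := LipschitzWith.integral_lineDeriv_mul_eq (μ := (volume : Measure (E d))) (hLi i) hχ hχc
      (EuclideanSpace.single i 1)
    simp only [hdi] at this
    exact this
  have hint1 : ∀ i ∈ Finset.univ, Integrable fun x =>
      (fderiv ℝ X x (EuclideanSpace.single i 1)) i * chi c r ε x := by
    intro i _
    apply Continuous.integrable_of_hasCompactSupport
    · have h1 : Continuous fun x => fderiv ℝ X x (EuclideanSpace.single i 1) :=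
        (hX.continuous_fderiv one_ne_zero).clm_apply continuous_const
      have h2 := hχ.continuous
      fun_prop
    · exact hχc.mul_left
  have hlb : ∀ i x, |lineDeriv ℝ (chi c r ε) x (-(EuclideanSpace.single i 1))| ≤ 1 / ε := by
    intro i x
    have h1 := norm_lineDeriv_le_of_lipschitz ℝ hχ (x₀ := x) (v := -(EuclideanSpace.single i 1))
    rw [Real.coe_toNNReal _ (by positivity), norm_neg, PiLp.norm_single, norm_one,
      mul_one, Real.norm_eq_abs] at h1
    exact h1
  have hint2 : ∀ i ∈ Finset.univ, Integrable fun x =>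
      lineDeriv ℝ (chi c r ε) x (-(EuclideanSpace.single i 1)) * X x i := by
    intro i _
    have hm : Measurable fun x => lineDeriv ℝ (chi c r ε) x (-(EuclideanSpace.single i 1)) :=
      measurable_lineDeriv hχ.continuous
    have hmX : Measurable fun x => X x i := (hLi i).continuous.measurable
    -- bounded with support in a bounded set
    have hdom : Integrable ((closedBall c (r + ε + 1)).indicator (fun _ : E d => (1 / ε : ℝ))) :=
      (integrable_indicator_iff measurableSet_closedBall).2
        (integrableOn_const measure_closedBall_lt_top.ne)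
    refine hdom.mono' (hm.mul hmX).aestronglyMeasurable (Filter.Eventually.of_forall fun x => ?_)
    by_cases hx : x ∈ closedBall c (r + ε + 1)
    · rw [indicator_of_mem hx, norm_mul, Real.norm_eq_abs]
      have h1 := PiLp.norm_apply_le (X x) i
      have h2 := hb x
      have h3 := hlb i x
      calc |lineDeriv ℝ (chi c r ε) x (-(EuclideanSpace.single i 1))| * ‖X x i‖ ≤
          (1 / ε) * 1 := by gcongr; exact h1.trans h2
        _ = 1 / ε := mul_one _
    · rw [indicator_of_notMem hx]
      have hx' : r + ε < ‖x - c‖ := by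
        rw [mem_closedBall, dist_eq_norm, not_le] at hx
        linarith
      have hcont : Continuous fun y : E d => ‖y - c‖ := by fun_prop
      have : chi c r ε =ᶠ[𝓝 x] fun _ => (0 : ℝ) := by
        filter_upwards [(isOpen_lt continuous_const hcont).mem_nhds hx'] with y hy
        exact chi_zero hε (le_of_lt hy)
      rw [this.lineDeriv_eq]
      simp [lineDeriv]
  have e1 : ∫ x, chi c r ε x * divg X x =
      ∫ x, ∑ i, lineDeriv ℝ (chi c r ε) x (-(EuclideanSpace.single i 1)) * X x i := by
    rw [integral_finsetSum _ hint2, ← Finset.sum_congr rfl (fun i _ => hparts i),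
      ← integral_finsetSum _ hint1]
    congr 1
    funext x
    unfold divg
    rw [Finset.mul_sum]
    exact Finset.sum_congr rfl fun i _ => mul_comm _ _
  rw [e1]
  have hshell : Integrable ((shell c r ε).indicator (fun _ : E d => (1 / ε : ℝ))) :=
    (integrable_indicator_iff (measurableSet_shell c r ε)).2
      (integrableOn_const (volume_shell_lt_top c r ε).ne)
  have hae : ∀ᵐ x : E d, ∑ i, lineDeriv ℝ (chi c r ε) x (-(EuclideanSpace.single i 1)) * X x i ≤
      (shell c r ε).indicator (fun _ : E d => (1 / ε : ℝ)) x := by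
    filter_upwards [hχ.ae_differentiableAt (μ := (volume : Measure (E d)))] with x hx
    have h1 : ∑ i, lineDeriv ℝ (chi c r ε) x (-(EuclideanSpace.single i 1)) * X x i =
        -(fderiv ℝ (chi c r ε) x (X x)) := by
      have h2 : X x = ∑ i, (X x i) • (EuclideanSpace.single i (1 : ℝ) : E d) := by
        ext j
        simp [Finset.sum_apply, Pi.single_apply]
      nth_rw 2 [h2]
      rw [map_sum, ← Finset.sum_neg_distrib]
      apply Finset.sum_congr rfl
      intro i _
      rw [hx.lineDeriv_eq_fderiv, map_neg, map_smul, smul_eq_mul]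
      ring
    rw [h1]
    by_cases hs : x ∈ shell c r ε
    · rw [indicator_of_mem hs]
      have h3 : ‖fderiv ℝ (chi c r ε) x‖ ≤ 1 / ε := by
        have := norm_fderiv_le_of_lipschitz ℝ hχ (x₀ := x)
        rwa [Real.coe_toNNReal _ (by positivity)] at this
      have h4 := (fderiv ℝ (chi c r ε) x).le_opNorm (X x)
      rw [Real.norm_eq_abs] at h4
      have h5 := (abs_le.1 (le_refl |fderiv ℝ (chi c r ε) x (X x)|)).1
      have h6 : ‖fderiv ℝ (chi c r ε) x‖ * ‖X x‖ ≤ (1 / ε) * 1 := by
        have := hb x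
        gcongr
      linarith
    · rw [indicator_of_notMem hs, fderiv_chi_eq_zero hε hs]
      simp
  refine (integral_mono_ae (integrable_finsetSum _ hint2) hshell hae).trans ?_
  rw [integral_indicator (measurableSet_shell c r ε), setIntegral_const, smul_eq_mul,
    Measure.real, volume_shell c hr hε, mul_comm]

/-- The flux bound: the integral of the divergence of a field of norm at most one over a ball is
at most the area `d ω_d r^{d-1}` of the sphere. -/
theorem ball_flux {d : ℕ} [NeZero d] {X : E d → E d} {C : ℝ≥0} (hX : ContDiff ℝ 1 X)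
    (hL : LipschitzWith C X) (hb : ∀ x, ‖X x‖ ≤ 1) (c : E d) {r : ℝ} (hr : 0 ≤ r) :
    ∫ x in closedBall c r, divg X x ≤ d * omega d * r ^ (d - 1) := by
  -- the inequality for every `ε`
  have key : ∀ ε : ℝ, 0 < ε → ∫ x in closedBall c r, divg X x ≤
      omega d * (((r + ε) ^ d - r ^ d) / ε) + (d * C) * (omega d * ((r + ε) ^ d - r ^ d)) := by
    intro ε hε
    have h1 := integral_chi_divg hX hL hb c hr hε
    have hcont : Continuous fun x => chi c r ε x * divg X x :=
      (chi_lip c r hε).continuous.mul (continuous_divg hX)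
    have hint : Integrable fun x => chi c r ε x * divg X x :=
      hcont.integrable_of_hasCompactSupport ((chi_compact c r hε).mul_right)
    have h2 : ∫ x, chi c r ε x * divg X x = (∫ x in closedBall c r, chi c r ε x * divg X x) +
        ∫ x in (closedBall c r)ᶜ, chi c r ε x * divg X x :=
      (integral_add_compl measurableSet_closedBall hint).symm
    have h3 : ∫ x in closedBall c r, chi c r ε x * divg X x = ∫ x in closedBall c r, divg X x := by
      apply setIntegral_congr_fun measurableSet_closedBall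
      intro x hx
      rw [mem_closedBall, dist_eq_norm] at hx
      simp only
      rw [chi_one hε hx, one_mul]
    have h4 : -((d * C) * (omega d * ((r + ε) ^ d - r ^ d))) ≤
        ∫ x in (closedBall c r)ᶜ, chi c r ε x * divg X x := by
      have hsh : Integrable ((shell c r ε).indicator (fun _ : E d => (-(d * C) : ℝ))) :=
        (integrable_indicator_iff (measurableSet_shell c r ε)).2
          (integrableOn_const (volume_shell_lt_top c r ε).ne)
      have h5 : ∫ x in (closedBall c r)ᶜ, (shell c r ε).indicator (fun _ : E d => (-(d * C) : ℝ)) x ≤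
          ∫ x in (closedBall c r)ᶜ, chi c r ε x * divg X x := by
        apply setIntegral_mono_on hsh.integrableOn hint.integrableOn
          measurableSet_closedBall.compl
        intro x hx
        by_cases hs : x ∈ shell c r ε
        · rw [indicator_of_mem hs]
          have h6 := norm_divg_le hL x
          have h7 := chi_nonneg c r ε x
          have h8 := chi_le_one c r ε x
          have h9 := (abs_le.1 h6).1
          have h10 : 0 ≤ (d : ℝ) * C := by positivity
          rcases le_total 0 (divg X x) with h11 | h11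
          · have := mul_nonneg h7 h11
            linarith
          · nlinarith
        · rw [indicator_of_notMem hs]
          have h6 : r + ε ≤ ‖x - c‖ := by
            by_contra h
            apply hs
            refine ⟨?_, ?_⟩
            · rw [mem_closedBall, dist_eq_norm]
              exact (not_le.1 h).le
            · intro h'
              exact hx (ball_subset_closedBall h')
          rw [chi_zero hε h6, zero_mul]
      refine le_trans ?_ h5
      have h6 : ∫ x in (closedBall c r)ᶜ, (shell c r ε).indicator (fun _ : E d => (-(d * C) : ℝ)) x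
          = ∫ x in (closedBall c r)ᶜ ∩ shell c r ε, (-(d * C) : ℝ) := by
        rw [← setIntegral_indicator (measurableSet_shell c r ε)]
      rw [h6, setIntegral_const, smul_eq_mul]
      have h7 : volume.real ((closedBall c r)ᶜ ∩ shell c r ε) ≤
          omega d * ((r + ε) ^ d - r ^ d) := by
        rw [← volume_shell c hr hε]
        exact ENNReal.toReal_mono (volume_shell_lt_top c r ε).ne (measure_mono inter_subset_right)
      have h8 : 0 ≤ volume.real ((closedBall c r)ᶜ ∩ shell c r ε) := measureReal_nonneg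
      have h10 : 0 ≤ (d : ℝ) * C := by positivity
      nlinarith
    rw [h2, h3] at h1
    have h5 : 1 / ε * (omega d * ((r + ε) ^ d - r ^ d)) =
        omega d * (((r + ε) ^ d - r ^ d) / ε) := by ring
    rw [h5] at h1
    linarith
  -- limit
  have hder : HasDerivAt (fun x : ℝ => x ^ d) (d * r ^ (d - 1)) r := by
    simpa using hasDerivAt_pow d r
  have hs := hder.tendsto_slope_zero_right
  have hs2 : Tendsto (fun ε : ℝ => ((r + ε) ^ d - r ^ d) / ε) (𝓝[>] 0) (𝓝 (d * r ^ (d - 1))) := by
    refine hs.congr fun ε => ?_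
    rw [smul_eq_mul]
    ring
  have hs3 : Tendsto (fun ε : ℝ => (r + ε) ^ d - r ^ d) (𝓝[>] 0) (𝓝 0) := by
    have : Continuous fun ε : ℝ => (r + ε) ^ d - r ^ d := by fun_prop
    have h := this.tendsto 0
    simp only [add_zero, sub_self] at h
    exact h.mono_left nhdsWithin_le_nhds
  have hlim := (hs2.const_mul (omega d)).add ((hs3.const_mul (omega d)).const_mul ((d : ℝ) * C))
  simp only [mul_zero, add_zero] at hlim
  have := ge_of_tendsto hlim (by
    filter_upwards [self_mem_nhdsWithin] with ε hε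
    exact key ε hε)
  calc ∫ x in closedBall c r, divg X x ≤ omega d * (d * r ^ (d - 1)) := this
    _ = d * omega d * r ^ (d - 1) := by ring

/-! ### The flat torus `T^d = ℝ^d / ℤ^d` -/

/-- The lattice vector with integer coordinates `z`. -/
def latt {d : ℕ} (z : Fin d → ℤ) : E d := WithLp.toLp 2 fun i => (z i : ℝ)

/-- The fundamental cell `[0,1)^d`. -/
def cell (d : ℕ) : Set (E d) := {x | ∀ i, 0 ≤ x i ∧ x i < 1}

/-- Volume in the torus of a periodic set. -/
def vol {d : ℕ} (D : Set (E d)) : ℝ := (volume (D ∩ cell d)).toReal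

/-- A domain of `T^d` (a compact region with smooth boundary), given by its periodic lift `D`:
`D` is `ℤ^d`-periodic and closed, and near each boundary point it is `{g ≤ 0}` for a smooth
function `g` with nonvanishing derivative. -/
structure IsDomain {d : ℕ} (D : Set (E d)) : Prop where
  periodic : ∀ (x : E d) (z : Fin d → ℤ), x + latt z ∈ D ↔ x ∈ D
  closed : IsClosed D
  smooth : ∀ p ∈ frontier D, ∃ g : E d → ℝ, ContDiff ℝ ((⊤ : ℕ∞) : WithTop ℕ∞) g ∧ g p = 0 ∧ fderiv ℝ g p ≠ 0 ∧
    ∀ᶠ x in 𝓝 p, (x ∈ D ↔ g x ≤ 0)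

/-- The `(d-1)`-dimensional volume of the boundary of a domain of `T^d` (its De Giorgi perimeter):
the supremum of `∫_D div X` over the `C^1` vector fields `X` on `T^d` of norm at most one. -/
def boundaryVol {d : ℕ} (D : Set (E d)) : ℝ≥0∞ :=
  ⨆ (X : E d → E d) (_ : ContDiff ℝ 1 X) (_ : ∀ (x : E d) (z : Fin d → ℤ), X (x + latt z) = X x)
    (_ : ∀ x, ‖X x‖ ≤ 1), ENNReal.ofReal (∫ x in D ∩ cell d, divg X x)

/-! ### Embedded balls in the torus -/

/-- Squared torus distance. -/
def qd {d : ℕ} (c x : E d) : ℝ := ∑ i, ‖((x i - c i : ℝ) : UnitAddCircle)‖ ^ 2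

theorem cn_eq (t : ℝ) : ‖(t : UnitAddCircle)‖ = |t - round t| := UnitAddCircle.norm_eq

theorem cn_of_near {t : ℝ} {n : ℤ} (h : |t - n| < 1 / 2) : ‖(t : UnitAddCircle)‖ = |t - n| := by
  rw [cn_eq]
  have h1 := abs_sub_round t
  have h2 : round t = n := by
    by_contra hne
    have h3 : (1 : ℝ) ≤ |(round t : ℝ) - n| := by
      have : (1 : ℤ) ≤ |round t - n| := Int.one_le_abs (sub_ne_zero.2 hne)
      exact_mod_cast this
    have h4 : |(round t : ℝ) - n| ≤ |t - round t| + |t - n| := by
      have := abs_sub_le (round t : ℝ) t n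
      rw [abs_sub_comm (round t : ℝ) t] at this
      exact this
    linarith
  rw [h2]

theorem cn_le (t : ℝ) : ‖(t : UnitAddCircle)‖ ≤ |t| := by
  rw [cn_eq]
  simpa using round_le t 0

/-- The lift of the closed ball of radius `r` about `c` in the torus. -/
def tball {d : ℕ} (c : E d) (r : ℝ) : Set (E d) := {x | qd c x ≤ r ^ 2}

theorem qd_periodic {d : ℕ} (c x : E d) (z : Fin d → ℤ) : qd c (x + latt z) = qd c x := by
  unfold qd latt
  apply Finset.sum_congr rfl
  intro i _
  rw [cn_eq, cn_eq]
  have h1 : (x + WithLp.toLp 2 fun i => (z i : ℝ)) i - c i = (x i - c i) + (z i : ℤ) := by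
    simp
    ring
  rw [h1, round_add_intCast]
  congr 2
  push_cast
  ring

theorem continuous_qd {d : ℕ} (c : E d) : Continuous (qd c) := by
  unfold qd
  apply continuous_finsetSum
  intro i _
  have h1 : Continuous fun t : ℝ => (t : UnitAddCircle) := AddCircle.continuous_mk' 1
  have h2 : Continuous fun x : E d => x i - c i := by fun_prop
  exact (continuous_norm.comp (h1.comp h2)).pow 2

theorem isClosed_tball {d : ℕ} (c : E d) (r : ℝ) : IsClosed (tball c r) :=
  isClosed_le (continuous_qd c) continuous_const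

theorem norm_sub_sq_eq {d : ℕ} (x c : E d) : ‖x - c‖ ^ 2 = ∑ i, (x i - c i) ^ 2 := by
  rw [EuclideanSpace.norm_sq_eq]
  simp

theorem coord_le {d : ℕ} {f : Fin d → ℝ} {r : ℝ} (hr : 0 ≤ r) (h : ∑ i, f i ^ 2 ≤ r ^ 2)
    (hf : ∀ i, 0 ≤ f i) (i : Fin d) : f i ≤ r := by
  have h1 : f i ^ 2 ≤ r ^ 2 :=
    (Finset.single_le_sum (f := fun i => f i ^ 2) (fun j _ => sq_nonneg _) (Finset.mem_univ i)).trans h
  exact (pow_le_pow_iff_left₀ (hf i) hr two_ne_zero).1 h1

theorem tball_inter_cell {d : ℕ} {c : E d} {r : ℝ} (hr : 0 ≤ r) (_hr2 : r < 1 / 2)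
    (hc : ∀ i, r < c i ∧ c i < 1 - r) : tball c r ∩ cell d = closedBall c r := by
  ext x
  constructor
  · rintro ⟨h1, h2⟩
    rw [mem_closedBall, dist_eq_norm]
    have h3 : ∀ i, ‖((x i - c i : ℝ) : UnitAddCircle)‖ ≤ r := coord_le hr h1 (fun i => norm_nonneg _)
    have h4 : ∀ i, ‖((x i - c i : ℝ) : UnitAddCircle)‖ = |x i - c i| := by
      intro i
      have h5 := h3 i
      have h6 := h2 i
      have h7 := hc i
      rw [cn_eq] at h5 ⊢
      have h8 : round (x i - c i) = 0 := by
        by_contra hne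
        have h9 : (1 : ℝ) ≤ |(round (x i - c i) : ℝ)| := by
          have : (1 : ℤ) ≤ |round (x i - c i)| := Int.one_le_abs hne
          exact_mod_cast this
        have h10 : |(round (x i - c i) : ℝ)| ≤ |x i - c i - round (x i - c i)| + |x i - c i| := by
          have := abs_sub_le (round (x i - c i) : ℝ) (x i - c i) 0
          rw [sub_zero, sub_zero, abs_sub_comm (round (x i - c i) : ℝ)] at this
          exact this
        have h11 : |x i - c i| < 1 - r := by
          rw [abs_lt]
          constructor <;> linarith [h6.1, h6.2, h7.1, h7.2]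
        linarith
      rw [h8]
      simp
    have h5 : ‖x - c‖ ^ 2 ≤ r ^ 2 := by
      rw [norm_sub_sq_eq]
      refine le_trans (le_of_eq ?_) h1
      unfold qd
      apply Finset.sum_congr rfl
      intro i _
      rw [h4, sq_abs]
    exact (pow_le_pow_iff_left₀ (norm_nonneg _) hr two_ne_zero).1 h5
  · intro h
    rw [mem_closedBall, dist_eq_norm] at h
    have h1 : ‖x - c‖ ^ 2 ≤ r ^ 2 := by gcongr
    rw [norm_sub_sq_eq] at h1
    refine ⟨?_, ?_⟩
    · refine le_trans ?_ h1
      unfold qd
      apply Finset.sum_le_sum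
      intro i _
      rw [← sq_abs (x i - c i)]
      have := cn_le (x i - c i)
      gcongr
    · intro i
      have h2 : ∑ i, |x i - c i| ^ 2 ≤ r ^ 2 := by simpa [sq_abs] using h1
      have h3 := coord_le hr h2 (fun i => abs_nonneg _) i
      have h4 := abs_le.1 h3
      have h5 := hc i
      constructor <;> linarith [h4.1, h4.2, h5.1, h5.2]

/-- Local description of the ball near each of its points. -/
theorem tball_local {d : ℕ} {c : E d} {r : ℝ} (hr : 0 < r) (hr2 : r < 1 / 2) {p : E d}
    (hp : p ∈ tball c r) : ∃ w : E d, ∀ᶠ x in 𝓝 p, (x ∈ tball c r ↔ ‖x - w‖ ^ 2 - r ^ 2 ≤ 0) := by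
  let w : E d := WithLp.toLp 2 fun i => c i + round (p i - c i)
  have hw : ∀ i, w i = c i + round (p i - c i) := fun i => rfl
  refine ⟨w, ?_⟩
  have h1 : ∀ i, ‖((p i - c i : ℝ) : UnitAddCircle)‖ ≤ r := coord_le hr.le hp (fun i => norm_nonneg _)
  have h2 : ∀ i, ∀ᶠ x : E d in 𝓝 p, |x i - w i| < 1 / 2 := by
    intro i
    have hcont : Continuous fun x : E d => |x i - w i| := by fun_prop
    apply (isOpen_lt hcont continuous_const).mem_nhds
    have h3 := h1 i
    rw [cn_eq] at h3
    simp only [mem_ofPred_eq, hw]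
    have h4 : p i - (c i + round (p i - c i)) = p i - c i - round (p i - c i) := by ring
    rw [h4]
    linarith
  filter_upwards [Filter.eventually_all.2 h2] with x hx
  have h3 : qd c x = ‖x - w‖ ^ 2 := by
    rw [norm_sub_sq_eq]
    unfold qd
    apply Finset.sum_congr rfl
    intro i _
    have h4 : x i - w i = x i - c i - (round (p i - c i) : ℤ) := by rw [hw]; ring
    have h5 : ‖((x i - c i : ℝ) : UnitAddCircle)‖ = |x i - c i - (round (p i - c i) : ℤ)| := by
      apply cn_of_near
      rw [← h4]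
      exact hx i
    rw [h5, ← h4, sq_abs]
  unfold tball
  rw [mem_ofPred_eq, h3]
  constructor <;> intro h <;> linarith

/-- Two disjoint balls form a domain. -/
theorem isDomain_two_balls {d : ℕ} {c c' : E d} {r r' : ℝ} (hr : 0 < r) (hr2 : r < 1 / 2)
    (hr' : 0 < r') (hr2' : r' < 1 / 2) (hdisj : Disjoint (tball c r) (tball c' r')) :
    IsDomain (tball c r ∪ tball c' r') := by
  have hclosed : IsClosed (tball c r ∪ tball c' r') := (isClosed_tball c r).union (isClosed_tball c' r')
  refine ⟨?_, hclosed, ?_⟩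
  · intro x z
    unfold tball
    simp only [mem_union, mem_ofPred_eq, qd_periodic]
  · intro p hp
    have hpD : p ∈ tball c r ∪ tball c' r' := hclosed.frontier_subset hp
    -- the general statement for one of the two balls
    have main : ∀ (a b : E d) (s t : ℝ), 0 < s → s < 1 / 2 → Disjoint (tball a s) (tball b t) →
        p ∈ tball a s → p ∈ frontier (tball a s ∪ tball b t) →
        ∃ g : E d → ℝ, ContDiff ℝ ((⊤ : ℕ∞) : WithTop ℕ∞) g ∧ g p = 0 ∧ fderiv ℝ g p ≠ 0 ∧
          ∀ᶠ x in 𝓝 p, (x ∈ tball a s ∪ tball b t ↔ g x ≤ 0) := by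
      intro a b s t hs hs2 hd hpa hpf
      obtain ⟨w, hw⟩ := tball_local hs hs2 hpa
      have hpb : p ∉ tball b t := fun h => Set.disjoint_left.1 hd hpa h
      have hb : ∀ᶠ x in 𝓝 p, x ∉ tball b t := (isClosed_tball b t).isOpen_compl.mem_nhds hpb
      have hiff : ∀ᶠ x in 𝓝 p, (x ∈ tball a s ∪ tball b t ↔ ‖x - w‖ ^ 2 - s ^ 2 ≤ 0) := by
        filter_upwards [hw, hb] with x h1 h2
        rw [← h1]
        constructor
        · rintro (h | h)
          · exact h
          · exact absurd h h2
        · intro h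
          exact Or.inl h
      have hg : ContDiff ℝ ((⊤ : ℕ∞) : WithTop ℕ∞) fun x : E d => ‖x - w‖ ^ 2 - s ^ 2 :=
        ((contDiff_id.sub contDiff_const).norm_sq ℝ).sub contDiff_const
      have hgp : ‖p - w‖ ^ 2 - s ^ 2 = 0 := by
        have h1 : ‖p - w‖ ^ 2 - s ^ 2 ≤ 0 := (hw.self_of_nhds).1 hpa
        by_contra hne
        have h2 : ‖p - w‖ ^ 2 - s ^ 2 < 0 := lt_of_le_of_ne h1 hne
        have h3 : ∀ᶠ x in 𝓝 p, ‖x - w‖ ^ 2 - s ^ 2 < 0 :=
          (isOpen_lt hg.continuous continuous_const).mem_nhds h2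
        have h4 : p ∈ interior (tball a s ∪ tball b t) := by
          rw [mem_interior_iff_mem_nhds]
          filter_upwards [hiff, h3] with x h5 h6
          exact h5.2 h6.le
        exact hpf.2 h4
      refine ⟨_, hg, hgp, ?_, hiff⟩
      have hder : HasFDerivAt (fun x : E d => ‖x - w‖ ^ 2 - s ^ 2)
          (2 • (innerSL ℝ (p - w)).comp (ContinuousLinearMap.id ℝ (E d))) p :=
        ((((hasFDerivAt_id p).sub_const w).norm_sq).sub_const (s ^ 2))
      rw [hder.fderiv]
      intro h0
      have h1 := congrArg (fun L : E d →L[ℝ] ℝ => L (p - w)) h0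
      simp only [smul_apply, ContinuousLinearMap.comp_apply,
        ContinuousLinearMap.id_apply, innerSL_apply_apply, zero_apply,
        real_inner_self_eq_norm_sq] at h1
      have h2 : ‖p - w‖ ^ 2 = s ^ 2 := by linarith
      rw [h2] at h1
      simp at h1
      exact hs.ne' h1
    rcases hpD with h | h
    · exact main c c' r r' hr hr2 hdisj h hp
    · have := main c' c r' r hr' hr2' hdisj.symm h (by rwa [union_comm])
      rwa [union_comm] at this


/-! ### Periodic fields are Lipschitz -/

theorem lipschitz_of_periodic {d : ℕ} {X : E d → E d} (hX : ContDiff ℝ 1 X)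
    (hp : ∀ (x : E d) (z : Fin d → ℤ), X (x + latt z) = X x) : ∃ C : ℝ≥0, LipschitzWith C X := by
  have hcont : Continuous fun x => ‖fderiv ℝ X x‖ := (hX.continuous_fderiv one_ne_zero).norm
  obtain ⟨B, hB⟩ := (isCompact_closedBall (0 : E d) (Real.sqrt d)).exists_bound_of_continuousOn
    (hX.continuous_fderiv one_ne_zero).continuousOn
  have hper : ∀ (x : E d) (z : Fin d → ℤ), fderiv ℝ X (x + latt z) = fderiv ℝ X x := by
    intro x z
    rw [← fderiv_comp_add_right]
    congr 1
    funext y
    exact hp y z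
  have hall : ∀ x, ‖fderiv ℝ X x‖ ≤ B := by
    intro x
    rw [← hper x (fun i => -⌊x i⌋)]
    apply hB
    rw [mem_closedBall, dist_zero_right]
    apply Real.le_sqrt_of_sq_le
    rw [EuclideanSpace.norm_sq_eq]
    have h1 : ∀ i ∈ Finset.univ, ‖(x + latt (fun i => -⌊x i⌋)) i‖ ^ 2 ≤ (1 : ℝ) := by
      intro i _
      have h2 : (x + latt (fun i => -⌊x i⌋)) i = Int.fract (x i) := by
        unfold latt
        simp only [PiLp.add_apply]
        push_cast
        unfold Int.fract
        ring
      rw [h2, Real.norm_eq_abs, sq_abs]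
      have h3 := Int.fract_nonneg (x i)
      have h4 := Int.fract_lt_one (x i)
      nlinarith
    refine (Finset.sum_le_sum h1).trans ?_
    simp
  have hB0 : 0 ≤ B := (norm_nonneg _).trans (hall 0)
  refine ⟨Real.toNNReal B, lipschitzWith_of_nnnorm_fderiv_le (𝕜 := ℝ)
    (hX.differentiable one_ne_zero) fun x => ?_⟩
  rw [← NNReal.coe_le_coe, coe_nnnorm, Real.coe_toNNReal _ hB0]
  exact hall x

/-! ### Volume and boundary volume of two disjoint balls -/

theorem vol_two_balls {d : ℕ} [NeZero d] {c c' : E d} {r r' : ℝ} (hr : 0 < r) (hr2 : r < 1 / 2)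
    (hr' : 0 < r') (hr2' : r' < 1 / 2) (hdisj : Disjoint (tball c r) (tball c' r'))
    (hc : ∀ i, r < c i ∧ c i < 1 - r) (hc' : ∀ i, r' < c' i ∧ c' i < 1 - r') :
    vol (tball c r ∪ tball c' r') = omega d * (r ^ d + r' ^ d) := by
  have hd : Disjoint (closedBall c r) (closedBall c' r') := by
    rw [← tball_inter_cell hr.le hr2 hc, ← tball_inter_cell hr'.le hr2' hc']
    exact hdisj.mono inter_subset_left inter_subset_left
  unfold vol
  rw [union_inter_distrib_right, tball_inter_cell hr.le hr2 hc, tball_inter_cell hr'.le hr2' hc',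
    measure_union hd measurableSet_closedBall, ENNReal.toReal_add measure_closedBall_lt_top.ne
    measure_closedBall_lt_top.ne, volume_closedBall_eq c hr.le, volume_closedBall_eq c' hr'.le]
  ring

theorem boundaryVol_two_balls {d : ℕ} [NeZero d] {c c' : E d} {r r' : ℝ} (hr : 0 < r)
    (hr2 : r < 1 / 2) (hr' : 0 < r') (hr2' : r' < 1 / 2)
    (hdisj : Disjoint (tball c r) (tball c' r'))
    (hc : ∀ i, r < c i ∧ c i < 1 - r) (hc' : ∀ i, r' < c' i ∧ c' i < 1 - r') :
    boundaryVol (tball c r ∪ tball c' r') ≤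
      ENNReal.ofReal (d * omega d * (r ^ (d - 1) + r' ^ (d - 1))) := by
  have hd : Disjoint (closedBall c r) (closedBall c' r') := by
    rw [← tball_inter_cell hr.le hr2 hc, ← tball_inter_cell hr'.le hr2' hc']
    exact hdisj.mono inter_subset_left inter_subset_left
  unfold boundaryVol
  refine iSup_le fun X => iSup_le fun hX => iSup_le fun hp => iSup_le fun hb => ?_
  apply ENNReal.ofReal_le_ofReal
  obtain ⟨C, hL⟩ := lipschitz_of_periodic hX hp
  have hi : ∀ (a : E d) (s : ℝ), IntegrableOn (divg X) (closedBall a s) := fun a s =>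
    (continuous_divg hX).continuousOn.integrableOn_compact (isCompact_closedBall a s)
  rw [union_inter_distrib_right, tball_inter_cell hr.le hr2 hc, tball_inter_cell hr'.le hr2' hc',
    setIntegral_union hd measurableSet_closedBall (hi _ _) (hi _ _)]
  have h1 := ball_flux hX hL hb c hr.le
  have h2 := ball_flux hX hL hb c' hr'.le
  calc _ ≤ (d : ℝ) * omega d * r ^ (d - 1) + d * omega d * r' ^ (d - 1) := add_le_add h1 h2
    _ = _ := by ring

/-! ### The two balls in dimension twelve -/

/-- The centre of the large ball: all coordinates `1/2`. -/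
def c₁ : E 12 := WithLp.toLp 2 fun _ => 1 / 2

/-- The centre of the small ball: all coordinates `0.2751`. -/
def c₂ : E 12 := WithLp.toLp 2 fun _ => 2751 / 10000

/-- The radius of the large ball. -/
def r₁ : ℝ := 49997 / 100000

/-- The radius of the small ball. -/
def r₂ : ℝ := 11 / 40

theorem disj : Disjoint (tball c₁ r₁) (tball c₂ r₂) := by
  rw [Set.disjoint_left]
  intro x h1 h2
  unfold tball at h1 h2
  rw [mem_ofPred_eq] at h1 h2
  unfold qd at h1 h2
  have key : ∀ i ∈ Finset.univ, (2249 / 10000 : ℝ) ^ 2 ≤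
      (1 + r₂ / r₁) * ‖((x i - c₁ i : ℝ) : UnitAddCircle)‖ ^ 2 +
      (1 + r₁ / r₂) * ‖((x i - c₂ i : ℝ) : UnitAddCircle)‖ ^ 2 := by
    intro i _
    set u := ‖((x i - c₁ i : ℝ) : UnitAddCircle)‖ with hu
    set v := ‖((x i - c₂ i : ℝ) : UnitAddCircle)‖ with hv
    have hu0 : 0 ≤ u := norm_nonneg _
    have hv0 : 0 ≤ v := norm_nonneg _
    have h3 : (2249 / 10000 : ℝ) ≤ u + v := by
      have h4 : ‖((2249 / 10000 : ℝ) : UnitAddCircle)‖ = 2249 / 10000 := by
        have : |(2249 / 10000 : ℝ) - (0 : ℤ)| < 1 / 2 := by norm_num [abs_lt]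
        rw [cn_of_near this]
        norm_num
      rw [← h4]
      have h5 : ((2249 / 10000 : ℝ) : UnitAddCircle) =
          ((x i - c₂ i : ℝ) : UnitAddCircle) - ((x i - c₁ i : ℝ) : UnitAddCircle) := by
        rw [← AddCircle.coe_sub]
        congr 1
        unfold c₁ c₂
        simp only
        ring
      rw [h5, add_comm u v]
      exact norm_sub_le _ _
    have h6 : (2249 / 10000 : ℝ) ^ 2 ≤ (u + v) ^ 2 := by gcongr
    refine h6.trans ?_
    unfold r₁ r₂
    nlinarith [sq_nonneg ((11 / 40 : ℝ) * u - (49997 / 100000) * v)]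
  have hsum := Finset.sum_le_sum key
  rw [Finset.sum_add_distrib, ← Finset.mul_sum, ← Finset.mul_sum, Finset.sum_const,
    Finset.card_univ, Fintype.card_fin, nsmul_eq_mul] at hsum
  have h7 : (1 + r₂ / r₁) * ∑ i, ‖((x i - c₁ i : ℝ) : UnitAddCircle)‖ ^ 2 ≤
      (1 + r₂ / r₁) * r₁ ^ 2 := by
    have : (0 : ℝ) ≤ 1 + r₂ / r₁ := by unfold r₁ r₂; norm_num
    gcongr
  have h8 : (1 + r₁ / r₂) * ∑ i, ‖((x i - c₂ i : ℝ) : UnitAddCircle)‖ ^ 2 ≤
      (1 + r₁ / r₂) * r₂ ^ 2 := by
    have : (0 : ℝ) ≤ 1 + r₁ / r₂ := by unfold r₁ r₂; norm_num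
    gcongr
  have h9 := hsum.trans (add_le_add h7 h8)
  unfold r₁ r₂ at h9
  norm_num at h9

theorem c₁_mem (i : Fin 12) : r₁ < c₁ i ∧ c₁ i < 1 - r₁ := by
  have : c₁ i = 1 / 2 := rfl
  rw [this]
  unfold r₁
  norm_num

theorem c₂_mem (i : Fin 12) : r₂ < c₂ i ∧ c₂ i < 1 - r₂ := by
  have : c₂ i = 2751 / 10000 := rfl
  rw [this]
  unfold r₂
  norm_num

/-! ### Numerical comparison with the model curves -/

theorem omega_even (k : ℕ) (hk : 0 < k) : omega (2 * k) = Real.pi ^ k / (k.factorial : ℝ) := by
  unfold omega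
  have : Nonempty (Fin (2 * k)) := ⟨⟨0, by omega⟩⟩
  have : Nontrivial (E (2 * k)) := inferInstance
  rw [InnerProductSpace.volume_ball_of_dim_even (k := k) (by simp)]
  rw [ENNReal.ofReal_one, one_pow, one_mul, ENNReal.toReal_ofReal (by positivity)]

theorem omega_odd (k : ℕ) : omega (2 * k + 1) =
    Real.pi ^ k * 2 ^ (k + 1) / ((2 * k + 1).doubleFactorial : ℝ) := by
  unfold omega
  have : Nonempty (Fin (2 * k + 1)) := ⟨⟨0, by omega⟩⟩
  have : Nontrivial (E (2 * k + 1)) := inferInstance
  rw [InnerProductSpace.volume_ball_of_dim_odd (k := k) (by simp)]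
  rw [ENNReal.ofReal_one, one_pow, one_mul, ENNReal.toReal_ofReal (by positivity)]
  simp


theorem om1 : omega 1 = 2 := by
  have := omega_odd 0
  norm_num [Nat.doubleFactorial] at this
  exact this

theorem om2 : omega 2 = Real.pi := by
  have := omega_even 1 (by norm_num)
  norm_num [Nat.factorial] at this
  exact this

theorem om3 : omega 3 = Real.pi * 4 / 3 := by
  have := omega_odd 1
  norm_num [Nat.doubleFactorial] at this
  exact this

theorem om4 : omega 4 = Real.pi ^ 2 / 2 := by
  have := omega_even 2 (by norm_num)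
  norm_num [Nat.factorial] at this
  exact this

theorem om5 : omega 5 = Real.pi ^ 2 * 8 / 15 := by
  have := omega_odd 2
  norm_num [Nat.doubleFactorial] at this
  exact this

theorem om6 : omega 6 = Real.pi ^ 3 / 6 := by
  have := omega_even 3 (by norm_num)
  norm_num [Nat.factorial] at this
  exact this

theorem om7 : omega 7 = Real.pi ^ 3 * 16 / 105 := by
  have := omega_odd 3
  norm_num [Nat.doubleFactorial] at this
  exact this

theorem om8 : omega 8 = Real.pi ^ 4 / 24 := by
  have := omega_even 4 (by norm_num)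
  norm_num [Nat.factorial] at this
  exact this

theorem om9 : omega 9 = Real.pi ^ 4 * 32 / 945 := by
  have := omega_odd 4
  norm_num [Nat.doubleFactorial] at this
  exact this

theorem om10 : omega 10 = Real.pi ^ 5 / 120 := by
  have := omega_even 5 (by norm_num)
  norm_num [Nat.factorial] at this
  exact this

theorem om11 : omega 11 = Real.pi ^ 5 * 64 / 10395 := by
  have := omega_odd 5
  norm_num [Nat.doubleFactorial] at this
  exact this

theorem om12 : omega 12 = Real.pi ^ 6 / 720 := by
  have := omega_even 6 (by norm_num)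
  norm_num [Nat.factorial] at this
  exact this

theorem pi_lo (n : ℕ) : (3141 / 1000 : ℝ) ^ n ≤ Real.pi ^ n := by
  have h := Real.pi_gt_d4
  have : (3141 / 1000 : ℝ) ≤ Real.pi := by linarith
  gcongr

theorem pi_hi (n : ℕ) : Real.pi ^ n ≤ (3142 / 1000 : ℝ) ^ n := by
  have h := Real.pi_lt_d4
  have h0 := Real.pi_pos
  have : Real.pi ≤ (3142 / 1000 : ℝ) := by linarith
  gcongr

theorem om12_hi : omega 12 ≤ 1337 / 1000 := by
  rw [om12]
  have := pi_hi 6
  norm_num at this
  linarith

/-- The core inequality: the `m`-dimensional model curve, at radius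
`(m / 12) * 0.49965`, encloses more than `β`. -/
theorem core (m : ℕ) (hm : 1 ≤ m) (hm2 : m ≤ 11) :
    omega 12 * (100005 / 100000 / 4096) < omega m * ((m : ℝ) / 12 * (49965 / 100000)) ^ m := by
  have h12 := om12_hi
  interval_cases m
  · rw [om1]; norm_num; linarith
  · rw [om2]
    have := pi_lo 1
    norm_num at this ⊢
    linarith
  · rw [om3]
    have := pi_lo 1
    norm_num at this ⊢
    linarith
  · rw [om4]
    have := pi_lo 2
    norm_num at this ⊢
    linarith
  · rw [om5]
    have := pi_lo 2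
    norm_num at this ⊢
    linarith
  · rw [om6]
    have := pi_lo 3
    norm_num at this ⊢
    linarith
  · rw [om7]
    have := pi_lo 3
    norm_num at this ⊢
    linarith
  · rw [om8]
    have := pi_lo 4
    norm_num at this ⊢
    linarith
  · rw [om9]
    have := pi_lo 4
    norm_num at this ⊢
    linarith
  · rw [om10]
    have := pi_lo 5
    norm_num at this ⊢
    linarith
  · rw [om11]
    have := pi_lo 5
    norm_num at this ⊢
    linarith

theorem b_lo : (1 / 2 : ℝ) ^ 12 < r₁ ^ 12 + r₂ ^ 12 := by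
  unfold r₁ r₂
  norm_num

theorem b_hi : r₁ ^ 12 + r₂ ^ 12 < 100005 / 100000 / 4096 := by
  unfold r₁ r₂
  norm_num

theorem ab : 49965 / 100000 * (r₁ ^ 11 + r₂ ^ 11) < r₁ ^ 12 + r₂ ^ 12 := by
  unfold r₁ r₂
  norm_num

/-- The two-ball domain beats the tube with `m`-dimensional cross-section. -/
theorem compare (m : ℕ) (hm : 1 ≤ m) (hm2 : m ≤ 12) {r : ℝ} (hr : 0 < r) (hr2 : r < 1 / 2)
    (h : omega m * r ^ m = omega 12 * (r₁ ^ 12 + r₂ ^ 12)) :
    12 * omega 12 * (r₁ ^ 11 + r₂ ^ 11) < m * omega m * r ^ (m - 1) := by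
  have hω := omega_pos 12
  have hωm := omega_pos m
  rcases Nat.lt_or_ge m 12 with h12 | h12
  · -- the tube has small radius
    have hlt : r < (m : ℝ) / 12 * (49965 / 100000) := by
      by_contra hge
      rw [not_lt] at hge
      have h1 := core m hm (by omega)
      have h2 : ((m : ℝ) / 12 * (49965 / 100000)) ^ m ≤ r ^ m := by gcongr
      have h3 : omega m * ((m : ℝ) / 12 * (49965 / 100000)) ^ m ≤ omega m * r ^ m := by gcongr
      have h4 : omega 12 * (r₁ ^ 12 + r₂ ^ 12) < omega 12 * (100005 / 100000 / 4096) := by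
        have := b_hi
        gcongr
      linarith
    have hpow : r ^ m = r * r ^ (m - 1) := by
      rw [← pow_succ']
      congr 1
      omega
    have ha : 0 < r₁ ^ 11 + r₂ ^ 11 := by unfold r₁ r₂; norm_num
    -- multiply by `r`
    have h5 : (12 * omega 12 * (r₁ ^ 11 + r₂ ^ 11)) * r < (m * omega m * r ^ (m - 1)) * r := by
      have h6 : (m * omega m * r ^ (m - 1)) * r = m * (omega 12 * (r₁ ^ 12 + r₂ ^ 12)) := by
        rw [← h, hpow]
        ring
      rw [h6]
      have hm0 : (0 : ℝ) < m := by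
        have : (1 : ℝ) ≤ m := by exact_mod_cast hm
        linarith
      calc (12 * omega 12 * (r₁ ^ 11 + r₂ ^ 11)) * r <
          (12 * omega 12 * (r₁ ^ 11 + r₂ ^ 11)) * ((m : ℝ) / 12 * (49965 / 100000)) := by
            gcongr
        _ = m * omega 12 * (49965 / 100000 * (r₁ ^ 11 + r₂ ^ 11)) := by ring
        _ < m * omega 12 * (r₁ ^ 12 + r₂ ^ 12) := by
            have := ab
            gcongr
        _ = _ := by ring
    exact lt_of_mul_lt_mul_right h5 hr.le
  · -- the ball would have radius above `1/2`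
    exfalso
    obtain rfl : m = 12 := by omega
    have h1 : r ^ 12 = r₁ ^ 12 + r₂ ^ 12 := mul_left_cancel₀ hω.ne' h
    have h2 : r ^ 12 ≤ (1 / 2) ^ 12 := by gcongr
    have h3 := b_lo
    linarith

/-- **Disproof of the model description of the isoperimetric profile of the flat torus.**
In dimension `d = 12` there are a volume `β ∈ (0, 1/2]` and a domain `D` of `T^12` of volume `β`
whose boundary volume is strictly smaller than `φ_k(β)` for every `k ≤ d - 1` for which `φ_k(β)` is
defined. (With `m = d - k`, the number `φ_k(β)` is `m ω_m r^{m-1}` where `0 < r < 1/2` and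
`ω_m r^m = β`.) -/
theorem result : ∃ d : ℕ, 3 ≤ d ∧ ∃ β : ℝ, 0 < β ∧ β ≤ 1 / 2 ∧ ∃ D : Set (E d),
    IsDomain D ∧ vol D = β ∧
    ∀ k : ℕ, k < d → ∀ r : ℝ, 0 < r → r < 1 / 2 → omega (d - k) * r ^ (d - k) = β →
      boundaryVol D < ENNReal.ofReal (((d - k : ℕ) : ℝ) * omega (d - k) * r ^ (d - k - 1)) := by
  have h1 : (0 : ℝ) < r₁ := by unfold r₁; norm_num
  have h2 : r₁ < 1 / 2 := by unfold r₁; norm_num
  have h3 : (0 : ℝ) < r₂ := by unfold r₂; norm_num
  have h4 : r₂ < 1 / 2 := by unfold r₂; norm_num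
  have hω := omega_pos 12
  have hω2 := om12_hi
  have hb := b_hi
  have hb0 : 0 < r₁ ^ 12 + r₂ ^ 12 := by positivity
  refine ⟨12, by norm_num, omega 12 * (r₁ ^ 12 + r₂ ^ 12), by positivity, ?_,
    tball c₁ r₁ ∪ tball c₂ r₂, isDomain_two_balls h1 h2 h3 h4 disj,
    vol_two_balls h1 h2 h3 h4 disj c₁_mem c₂_mem, ?_⟩
  · calc omega 12 * (r₁ ^ 12 + r₂ ^ 12) ≤ 1337 / 1000 * (100005 / 100000 / 4096) := by gcongr
      _ ≤ 1 / 2 := by norm_num
  · intro k hk r hr hr2 h
    refine (boundaryVol_two_balls h1 h2 h3 h4 disj c₁_mem c₂_mem).trans_lt ?_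
    have := compare (12 - k) (by omega) (by omega) hr hr2 h
    norm_num only [Nat.cast_ofNat, Nat.add_one_sub_one] at this ⊢
    apply (ENNReal.ofReal_lt_ofReal_iff_of_nonneg (by positivity)).2
    exact this

end Pool.Agent.Results.MP_cbfbdc_gt.Dim12
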